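import Mathlib
import Pool.Agent.Helper134_U1.Main

/-!
# Followed preimages of bounded order
-/

set_option autoImplicit false
open Set Filter Topology Metric

namespace Pool.Agent.Helper134.Eff

open Pool.Agent.H712R2 (P fc P_succ P_one P_zero)
open Pool.Agent.Helper217.Width (A₀ one_le_A₀ SL)
open Pool.Agent.Helper134.U1 (exists_root TT exp_TT norm_le_four norm_pow_le log_bound)

variable {n : ℕ} {c : ℂ} {r s0 : ℝ} {K N : ℕ}

/-- No superattracting parameters of period at most `N` in the ball. -/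
def NoCen (n : ℕ) (c : ℂ) (r : ℝ) (N : ℕ) : Prop :=
  ∀ t ∈ ball c r, ∀ m, 1 ≤ m → m ≤ N → P n m t ≠ 0

/-- A preimage of the critical point of order at most `K` which can be followed over the ball, with
speed at most one at the centre. -/
def Good (n : ℕ) (c : ℂ) (r : ℝ) (K : ℕ) (y : ℂ) : Prop :=
  ∃ Y : ℂ → ℂ, DifferentiableOn ℂ Y (ball c r) ∧ Y c = y ∧
    (∀ t ∈ ball c r, ∃ k ≤ K, (fc n t)^[k] (Y t) = 0) ∧ ‖deriv Y c‖ ≤ 1

theorem good_zero : Good n c r K 0 :=
  ⟨fun _ => 0, differentiableOn_const _, rfl, fun _ _ => ⟨0, Nat.zero_le _, rfl⟩, by simp⟩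

theorem Y_ne (hn : 2 ≤ n) (hno : NoCen n c r N) {y t : ℂ} (ht : t ∈ ball c r) {k : ℕ}
    (hk : (fc n t)^[k] y = 0) (hkN : k + 1 ≤ N) : y ≠ t := by
  intro h
  rw [h, Pool.Agent.H712R2.iter_c hn] at hk
  exact hno t ht (k + 1) (by omega) hkN hk

theorem Good.ne (hn : 2 ≤ n) (hr : 0 < r) (hno : NoCen n c r N) (hKN : K + 1 ≤ N) {y : ℂ}
    (hy : Good n c r K y) : y ≠ c := by
  obtain ⟨Y, -, hYc, hYk, -⟩ := hy
  obtain ⟨k, hkK, hk⟩ := hYk c (mem_ball_self hr)
  rw [← hYc]
  exact Y_ne hn hno (mem_ball_self hr) hk (by omega)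

theorem Good.root (hn : 2 ≤ n) (hr : 0 < r) (hno : NoCen n c r N) (hKN : K + 1 ≤ N) {y u : ℂ}
    (hy : Good n c r K y) (hu : u ^ n = y - c) (hu2 : 2 ≤ n * ‖u‖ ^ (n - 1)) :
    Good n c r (K + 1) u := by
  obtain ⟨Y, hYd, hYc, hYk, hYb⟩ := hy
  have hn0 : (n : ℂ) ≠ 0 := by
    have : n ≠ 0 := by omega
    exact_mod_cast this
  have hcm : c ∈ ball c r := mem_ball_self hr
  have hne : ∀ t ∈ ball c r, Y t - t ≠ 0 := by
    intro t ht h
    obtain ⟨k, hkK, hk⟩ := hYk t ht
    exact Y_ne hn hno ht hk (by omega) (sub_eq_zero.mp h)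
  have hu0 : u ≠ 0 := by
    intro h0
    have := hne c hcm
    rw [hYc, ← hu, h0, zero_pow (by omega)] at this
    exact this rfl
  have hgd : DifferentiableOn ℂ (fun t => Y t - t) (ball c r) := hYd.sub differentiableOn_id
  obtain ⟨l, hl1, hl2, hl3⟩ := Pool.Agent.H712R2.M.exists_log_ball hr hgd hne (n * Complex.log u)
    (by rw [Complex.exp_nat_mul, Complex.exp_log hu0, hu, hYc])
  have hpow : ∀ t ∈ ball c r, Complex.exp (l t / n) ^ n = Y t - t := by
    intro t ht
    rw [← Complex.exp_nat_mul, mul_div_cancel₀ _ hn0, hl3 t ht]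
  have hUd : DifferentiableOn ℂ (fun t => Complex.exp (l t / n)) (ball c r) :=
    (hl1.div_const _).cexp
  have hUc : Complex.exp (l c / n) = u := by
    rw [hl2, mul_div_cancel_left₀ _ hn0, Complex.exp_log hu0]
  refine ⟨fun t => Complex.exp (l t / n), hUd, hUc, ?_, ?_⟩
  · intro t ht
    obtain ⟨k, hkK, hk⟩ := hYk t ht
    refine ⟨k + 1, by omega, ?_⟩
    rw [Function.iterate_succ_apply]
    have : fc n t (Complex.exp (l t / n)) = Y t := by
      simp only [fc]
      rw [hpow t ht]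
      ring
    rw [this, hk]
  · have hnhds := isOpen_ball.mem_nhds hcm
    have hU1 : HasDerivAt (fun t => Complex.exp (l t / n))
        (deriv (fun t => Complex.exp (l t / n)) c) c := (hUd.differentiableAt hnhds).hasDerivAt
    set U' := deriv (fun t => Complex.exp (l t / n)) c with hU'
    have h1 := hU1.pow n
    rw [hUc] at h1
    have h2 : HasDerivAt (fun t => Y t - t) (deriv Y c - 1) c :=
      ((hYd.differentiableAt hnhds).hasDerivAt).sub (hasDerivAt_id c)
    have h3 : HasDerivAt (fun t => Y t - t) (n * u ^ (n - 1) * U') c := by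
      refine h1.congr_of_eventuallyEq ?_
      filter_upwards [hnhds] with t ht
      exact (hpow t ht).symm
    have h4 := h3.unique h2
    have h5 : n * ‖u‖ ^ (n - 1) * ‖U'‖ ≤ 2 := by
      have h6 : ‖(n : ℂ) * u ^ (n - 1) * U'‖ ≤ 2 := by
        rw [h4]
        refine (norm_sub_le _ _).trans ?_
        rw [norm_one]
        linarith
      rwa [norm_mul, norm_mul, norm_pow, Complex.norm_natCast] at h6
    have h6 : 2 * ‖U'‖ ≤ n * ‖u‖ ^ (n - 1) * ‖U'‖ :=
      mul_le_mul_of_nonneg_right hu2 (norm_nonneg _)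
    linarith

/-- Landau's theorem for the cross ratio of `P_2`, `c`, `0` and a followed preimage. -/
theorem landau (hn : 2 ≤ n) (hr : 0 < r) (hno : NoCen n c r N) (hKN : K + 2 ≤ N) {y : ℂ}
    (hy : Good n c r K y) : r * n ≤
      ‖c‖ * (A₀ * (1 + |Real.log (‖c‖ ^ n / ‖y - c‖)|) + 2 * r / ‖y - c‖) := by
  have hyne := hy.ne hn hr hno (by omega)
  obtain ⟨Y, hYd, hYc, hYk, hYb⟩ := hy
  have hcm : c ∈ ball c r := mem_ball_self hr
  have hnhds := isOpen_ball.mem_nhds hcm
  have hne : ∀ t ∈ ball c r, Y t - t ≠ 0 := by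
    intro t ht h
    obtain ⟨k, hkK, hk⟩ := hYk t ht
    exact Y_ne hn hno ht hk (by omega) (sub_eq_zero.mp h)
  have hne0 : ∀ t ∈ ball c r, t ≠ 0 := by
    intro t ht h
    exact hno t ht 1 le_rfl (by omega) (by rw [P_one hn, h])
  have hZd : DifferentiableOn ℂ (fun t => t ^ n / (Y t - t)) (ball c r) :=
    (differentiableOn_id.pow n).div (hYd.sub differentiableOn_id) hne
  have h0 : ∀ t ∈ ball c r, t ^ n / (Y t - t) ≠ 0 := fun t ht =>
    div_ne_zero (pow_ne_zero _ (hne0 t ht)) (hne t ht)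
  have h1 : ∀ t ∈ ball c r, t ^ n / (Y t - t) ≠ 1 := by
    intro t ht h
    rw [div_eq_one_iff_eq (hne t ht)] at h
    have h2 : P n (1 + 1) t = Y t := by rw [P_succ, P_one hn, h]; ring
    obtain ⟨k, hkK, hk⟩ := hYk t ht
    rw [← h2, ← Pool.Agent.H712R2.iter_c hn, ← Function.iterate_add_apply,
      Pool.Agent.H712R2.iter_c hn] at hk
    exact hno t ht _ (by omega) (by omega) hk
  have hSL := (SL hr hZd h0 h1).2
  have hc0 : c ≠ 0 := hne0 c hcm
  have hD : HasDerivAt (fun t => t ^ n / (Y t - t))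
      ((c ^ n / (Y c - c)) * (n / c - (deriv Y c - 1) / (Y c - c))) c := by
    have h2 := ((hasDerivAt_id c).pow n).div
      (((hYd.differentiableAt hnhds).hasDerivAt).sub (hasDerivAt_id c)) (hne c hcm)
    convert! h2 using 1
    have h4 := hne c hcm
    have h5 : c ^ n = c ^ (n - 1) * c := by
      rw [← pow_succ, Nat.sub_add_cancel (by omega)]
    simp only [Pi.pow_apply, Pi.sub_apply, id]
    rw [h5]
    field_simp
  rw [hD.deriv, norm_mul, hYc] at hSL
  have hZ0 : 0 < ‖c ^ n / (y - c)‖ := by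
    rw [norm_pos_iff, ← hYc]
    exact h0 c hcm
  have hPc : 0 < ‖c‖ := norm_pos_iff.mpr hc0
  have hyc : 0 < ‖y - c‖ := norm_pos_iff.mpr (sub_ne_zero.mpr hyne)
  have h2 : ‖(n / c - (deriv Y c - 1) / (y - c) : ℂ)‖ * r ≤
      A₀ * (1 + |Real.log (‖c‖ ^ n / ‖y - c‖)|) := by
    have h3 : ‖c ^ n / (y - c)‖ * (‖(n / c - (deriv Y c - 1) / (y - c) : ℂ)‖ * r) ≤
        ‖c ^ n / (y - c)‖ * (A₀ * (1 + |Real.log (‖c‖ ^ n / ‖y - c‖)|)) := by
      rw [← norm_pow, ← norm_div]
      calc _ = _ := by ring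
        _ ≤ _ := hSL
        _ = _ := by ring
    exact le_of_mul_le_mul_left h3 hZ0
  have h3 : ‖(n / c : ℂ)‖ ≤ ‖(n / c - (deriv Y c - 1) / (y - c) : ℂ)‖ +
      ‖(deriv Y c - 1) / (y - c)‖ := by
    have := norm_add_le (n / c - (deriv Y c - 1) / (y - c) : ℂ) ((deriv Y c - 1) / (y - c))
    rwa [sub_add_cancel] at this
  have h4 : ‖(deriv Y c - 1) / (y - c)‖ ≤ 2 / ‖y - c‖ := by
    rw [norm_div]
    gcongr
    refine (norm_sub_le _ _).trans ?_
    rw [norm_one]
    linarith
  rw [norm_div, Complex.norm_natCast] at h3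
  have h5 : n / ‖c‖ * r ≤
      A₀ * (1 + |Real.log (‖c‖ ^ n / ‖y - c‖)|) + 2 * r / ‖y - c‖ := by
    have h6 : 2 / ‖y - c‖ * r = 2 * r / ‖y - c‖ := by ring
    nlinarith
  have h6 : r * n = ‖c‖ * (n / ‖c‖ * r) := by
    field_simp
  rw [h6]
  gcongr

/-- There are followed preimages of order at most `K` at all distances at least `s0`, in units of
`1 / n`. -/
def Stat (n : ℕ) (c : ℂ) (r : ℝ) (K : ℕ) (s0 : ℝ) : Prop := ∀ s, s0 ≤ s → s ≤ n / 6 →
  ∃ y, Good n c r K y ∧ s / 24 ≤ n * ‖y - c‖ ∧ n * ‖y - c‖ ≤ 24 * s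

theorem Stat.step (hn : 2 ≤ n) (hr : 0 < r) (hno : NoCen n c r N) (hKN : K + 1 ≤ N)
    (hc1 : 1 / 2 ≤ ‖c‖) (hc2 : ‖c‖ ^ (n - 1) ≤ 4) (h200 : 200 ≤ s0) (hs0 : s0 ≤ n / 6)
    (h : Stat n c r K s0) : Stat n c r (K + 1) (200 + max 0 (Real.log s0 - TT n c)) := by
  intro s hs hsn
  have hn0 : (0 : ℝ) < n := by
    have : 0 < n := by omega
    exact_mod_cast this
  have hc0 : 0 < ‖c‖ := by linarith
  set T := TT n c with hT
  have hE := exp_TT hn hc0
  rw [← hT] at hE
  have hE16 : Real.exp T ≤ 16 * n := by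
    rw [hE]
    have := norm_pow_le hn hc2
    nlinarith
  have hEpos := Real.exp_pos T
  set s' := max s0 (min (Real.exp T) (n / 6)) with hs'
  have hs's0 : s0 ≤ s' := le_max_left _ _
  have hs'n : s' ≤ n / 6 := max_le hs0 (min_le_right _ _)
  have hs'E : Real.exp T / 96 ≤ s' := by
    refine le_trans ?_ (le_max_right _ _)
    apply le_min
    · linarith
    · linarith
  obtain ⟨y, hy, hy1, hy2⟩ := h s' hs's0 hs'n
  have hyne := hy.ne hn hr hno hKN
  have hyc : 0 < ‖y - c‖ := norm_pos_iff.mpr (sub_ne_zero.mpr hyne)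
  obtain ⟨w, hw1, hw2, hw3, hw4⟩ := exists_root hn (norm_pos_iff.mp hc0) hyne s
  have hs'0 : 0 < s' := by linarith
  have hlog24 : Real.log 24 ≤ 23 := by
    have := Real.log_le_sub_one_of_pos (show (0:ℝ) < 24 by norm_num)
    linarith
  have hlog96 : Real.log 96 ≤ 95 := by
    have := Real.log_le_sub_one_of_pos (show (0:ℝ) < 96 by norm_num)
    linarith
  have hmax0 := le_max_left 0 (Real.log s0 - T)
  have hmax1 := le_max_right 0 (Real.log s0 - T)
  have ha : Real.log (n * ‖y - c‖) = Real.log n + Real.log ‖y - c‖ :=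
    Real.log_mul hn0.ne' hyc.ne'
  have hwre : w.re = Real.log (n * ‖y - c‖) - T := by
    rw [hw1, ha, hT, TT]
    ring
  have hup : Real.log (n * ‖y - c‖) - T ≤ s - 100 := by
    have h1 : Real.log (n * ‖y - c‖) ≤ Real.log 24 + Real.log s' := by
      rw [← Real.log_mul (by norm_num) hs'0.ne']
      exact Real.log_le_log (by positivity) hy2
    have h2 : Real.log s' ≤ T + max 0 (Real.log s0 - T) := by
      have h3 : s' ≤ max s0 (Real.exp T) := max_le_max le_rfl (min_le_left _ _)
      rcases le_total s0 (Real.exp T) with h4 | h4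
      · rw [max_eq_right h4] at h3
        have h5 := Real.log_le_log hs'0 h3
        rw [Real.log_exp] at h5
        linarith
      · rw [max_eq_left h4] at h3
        have h5 := Real.log_le_log hs'0 h3
        linarith
    linarith
  have hlow : -(s - 80) ≤ Real.log (n * ‖y - c‖) - T := by
    have h1 : Real.log (s' / 24) ≤ Real.log (n * ‖y - c‖) := Real.log_le_log (by positivity) hy1
    rw [Real.log_div hs'0.ne' (by norm_num)] at h1
    have h2 : Real.log (Real.exp T / 96) ≤ Real.log s' := Real.log_le_log (by positivity) hs'E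
    rw [Real.log_div (Real.exp_pos _).ne' (by norm_num), Real.log_exp] at h2
    linarith
  have hre : |w.re| ≤ s - 80 := by
    rw [hwre, abs_le]
    constructor <;> linarith
  have hpi := Real.pi_lt_four
  have hwle : ‖w‖ ≤ 2 * s := by
    have h1 := Complex.norm_le_abs_re_add_abs_im w
    have h2 : |w.im| ≤ s + 8 := by
      rw [abs_le]
      constructor <;> linarith
    linarith
  have hwge : s ≤ ‖w‖ := by
    have h1 := Complex.abs_im_le_norm w
    have h2 : s ≤ |w.im| := hw2.trans (le_abs_self _)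
    linarith
  set z : ℂ := w / n with hz
  have hzn : ‖z‖ = ‖w‖ / n := by rw [hz, norm_div, Complex.norm_natCast]
  have hz3 : ‖z‖ ≤ 1 / 3 := by
    rw [hzn, div_le_iff₀ hn0]
    linarith
  have hz1 : ‖Complex.exp z - 1‖ ≤ 2 * ‖z‖ := Complex.norm_exp_sub_one_le (by linarith)
  have hz2 : ‖z‖ / 2 ≤ ‖Complex.exp z - 1‖ := by
    have h1 := Complex.norm_exp_sub_one_sub_id_le (x := z) (by linarith)
    have h2 : ‖z‖ ≤ ‖Complex.exp z - 1‖ + ‖Complex.exp z - 1 - z‖ := by
      have := norm_sub_le (Complex.exp z - 1) (Complex.exp z - 1 - z)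
      rwa [sub_sub_cancel] at this
    have h3 := norm_nonneg z
    nlinarith
  set u : ℂ := c * Complex.exp z with hu
  have huc : ‖u - c‖ = ‖c‖ * ‖Complex.exp z - 1‖ := by
    rw [← norm_mul, hu]
    congr 1
    ring
  have hc4 := norm_le_four hn hc2
  have hun : ‖u‖ ^ n = ‖y - c‖ := by rw [← norm_pow, hw4]
  have hu2 : ‖u‖ ≤ 2 := by
    by_contra hcon
    push Not at hcon
    have h1 : (2 : ℝ) ^ 2 ≤ 2 ^ n := pow_le_pow_right₀ (by norm_num) hn
    have h2 : (2 : ℝ) ^ n < ‖u‖ ^ n := pow_lt_pow_left₀ hcon (by norm_num) (by omega)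
    rw [hun] at h2
    nlinarith
  refine ⟨u, hy.root hn hr hno hKN hw4 ?_, ?_, ?_⟩
  · have h1 : ‖u‖ ^ n = ‖u‖ ^ (n - 1) * ‖u‖ := by
      rw [← pow_succ, Nat.sub_add_cancel (by omega)]
    have h2 : 200 / 24 ≤ n * (‖u‖ ^ (n - 1) * ‖u‖) := by
      rw [← h1, hun]
      linarith
    have h3 : 0 ≤ n * ‖u‖ ^ (n - 1) := by positivity
    nlinarith
  · rw [huc]
    have h1 : ‖w‖ = n * ‖z‖ := by rw [hzn]; field_simp
    have h2 : (1 / 2) * (‖z‖ / 2) ≤ ‖c‖ * ‖Complex.exp z - 1‖ := by
      gcongr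
    nlinarith
  · rw [huc]
    have h1 : ‖w‖ = n * ‖z‖ := by rw [hzn]; field_simp
    have h2 : ‖c‖ * ‖Complex.exp z - 1‖ ≤ 4 * (2 * ‖z‖) := by
      gcongr
    nlinarith

/-- Iterated logarithms, cut off at `1`. -/
noncomputable def ell (n m : ℕ) : ℝ := (fun x : ℝ => max 1 (Real.log x))^[m] n

theorem ell_succ (n m : ℕ) : ell n (m + 1) = max 1 (Real.log (ell n m)) := by
  unfold ell
  rw [Function.iterate_succ_apply']

theorem one_le_ell (hn : 2 ≤ n) (m : ℕ) : 1 ≤ ell n m := by
  cases m with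
  | zero =>
    unfold ell
    simp only [Function.iterate_zero, id]
    have : 1 ≤ n := by omega
    exact_mod_cast this
  | succ m => rw [ell_succ]; exact le_max_left _ _

theorem log_ell_le (n m : ℕ) : Real.log (ell n m) ≤ ell n (m + 1) := by
  rw [ell_succ]; exact le_max_right _ _

theorem stat_zero (hn : 2 ≤ n) (hc1 : 1 / 2 ≤ ‖c‖) (hc2 : ‖c‖ ^ (n - 1) ≤ 4) :
    Stat n c r K (n / 6) := by
  intro s hs hsn
  have hn0 : (0 : ℝ) < n := by
    have : 0 < n := by omega
    exact_mod_cast this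
  have hc4 := norm_le_four hn hc2
  have h2 : s = n / 6 := le_antisymm hsn hs
  refine ⟨0, good_zero, ?_, ?_⟩
  · rw [zero_sub, norm_neg, h2]
    nlinarith
  · rw [zero_sub, norm_neg, h2]
    nlinarith

/-- **Followed preimages of bounded order.** -/
theorem stat_all (hn : 2 ≤ n) (hr : 0 < r) (hno : NoCen n c r N) (hc1 : 1 / 2 ≤ ‖c‖)
    (hc2 : ‖c‖ ^ (n - 1) ≤ 4) : ∀ K, K ≤ N →
    Stat n c r K (1000 * (max 0 (-TT n c) + ell n K)) := by
  have hn0 : (0 : ℝ) < n := by
    have : 0 < n := by omega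
    exact_mod_cast this
  have hT0 := le_max_left 0 (-TT n c)
  have hT1 := le_max_right 0 (-TT n c)
  set t := max 0 (-TT n c) with ht
  intro K
  induction K with
  | zero =>
    intro _ s hs hsn
    exfalso
    have : ell n 0 = n := rfl
    rw [this] at hs
    linarith
  | succ K ih =>
    intro hKN
    have hl := one_le_ell hn K
    have hl1 := one_le_ell hn (K + 1)
    rcases le_or_gt ((n : ℝ) / 6) 200 with h6 | h6
    · intro s hs hsn
      exfalso
      linarith
    · have h1 : Stat n c r K (min (1000 * (t + ell n K)) (n / 6)) := by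
        rcases le_total (1000 * (t + ell n K)) (n / 6) with h2 | h2
        · rw [min_eq_left h2]
          exact ih (by omega)
        · rw [min_eq_right h2]
          exact stat_zero hn hc1 hc2
      have h3 := h1.step hn hr hno (by omega) hc1 hc2
        (le_min (by linarith) h6.le) (min_le_right _ _)
      have hmin0 : 0 < min (1000 * (t + ell n K)) ((n : ℝ) / 6) :=
        lt_min (by linarith) (by linarith)
      have h4 : Real.log (min (1000 * (t + ell n K)) (n / 6)) ≤ 7 + t + ell n (K + 1) := by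
        calc Real.log (min (1000 * (t + ell n K)) (n / 6))
            ≤ Real.log (1000 * (t + ell n K)) := Real.log_le_log hmin0 (min_le_left _ _)
          _ = Real.log 1000 + Real.log (t + ell n K) :=
              Real.log_mul (by norm_num) (by linarith)
          _ ≤ 7 + (t + ell n (K + 1)) := by
              have h5 : Real.log 1000 ≤ 7 := by
                have h6 : Real.log 1000 ≤ Real.log (2 ^ 10) :=
                  Real.log_le_log (by norm_num) (by norm_num)
                rw [Real.log_pow] at h6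
                have := Real.log_two_lt_d9
                norm_num at h6
                linarith
              have h7 : Real.log (t + ell n K) ≤ Real.log ((1 + t) * ell n K) :=
                Real.log_le_log (by linarith) (by nlinarith)
              rw [Real.log_mul (by linarith) (by linarith)] at h7
              have h8 := Real.log_le_sub_one_of_pos (show 0 < 1 + t by linarith)
              have h9 := log_ell_le n K
              linarith
          _ = _ := by ring
      intro s hs hsn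
      apply h3 s _ hsn
      refine le_trans ?_ hs
      have h5 : max 0 (Real.log (min (1000 * (t + ell n K)) (n / 6)) - TT n c) ≤
          7 + t + ell n (K + 1) + t := by
        apply max_le
        · linarith
        · linarith
      linarith

theorem exists_good (hn : 2 ≤ n) (hr : 0 < r) (hno : NoCen n c r N) (hc1 : 1 / 2 ≤ ‖c‖)
    (hc2 : ‖c‖ ^ (n - 1) ≤ 4) (hKN : K ≤ N) {s : ℝ}
    (hs : 1000 * (max 0 (-TT n c) + ell n K) ≤ s)
    (hsn : s ≤ 1000 * (max 0 (-TT n c) + ell n K) ∨ s ≤ 16 * n)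
    (hb : 1000 * (max 0 (-TT n c) + ell n K) ≤ 20000 * n) :
    ∃ y, Good n c r K y ∧ s / 40000 ≤ n * ‖y - c‖ ∧ n * ‖y - c‖ ≤ 32 * s := by
  have hn0 : (0 : ℝ) < n := by
    have : 0 < n := by omega
    exact_mod_cast this
  have hc4 := norm_le_four hn hc2
  have hT0 := le_max_left 0 (-TT n c)
  have hl := one_le_ell hn K
  have hs20 : s ≤ 20000 * n := by
    rcases hsn with h | h <;> linarith
  rcases le_or_gt s (n / 6) with h | h
  · obtain ⟨y, hy, h1, h2⟩ := stat_all hn hr hno hc1 hc2 K hKN s hs h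
    exact ⟨y, hy, by linarith, by linarith⟩
  · refine ⟨0, good_zero, ?_, ?_⟩
    · rw [zero_sub, norm_neg]
      nlinarith
    · rw [zero_sub, norm_neg]
      nlinarith

end Pool.Agent.Helper134.Eff
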