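import Mathlib
import Pool.Agent.Helper134_Eff.Basic
import Pool.Agent.Helper134_U1.Centre

/-!
# Superattracting parameters of bounded period: the upper bound
-/

set_option autoImplicit false
open Set Filter Topology Metric

namespace Pool.Agent.Helper134.Eff

open Pool.Agent.H712R2 (P fc P_succ P_one P_zero)
open Pool.Agent.Helper217.Width (A₀ one_le_A₀ SL)
open Pool.Agent.Helper134.U1 (exists_root TT exp_TT norm_le_four norm_pow_le deep one_add_pow)

variable {n : ℕ} {c : ℂ} {r : ℝ} {K N : ℕ}

theorem ell_le (hn : 2 ≤ n) (m : ℕ) : ell n m ≤ n := by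
  have hn0 : (1 : ℝ) ≤ n := by
    have : 1 ≤ n := by omega
    exact_mod_cast this
  induction m with
  | zero => exact le_rfl
  | succ m ih =>
    rw [ell_succ]
    apply max_le hn0
    have h1 := one_le_ell hn m
    have h2 := Real.log_le_sub_one_of_pos (show 0 < ell n m by linarith)
    linarith

theorem exists_good' (hn : 100 ≤ n) (hr : 0 < r) (hno : NoCen n c r N) (hc1 : 1 / 2 ≤ ‖c‖)
    (hc2 : ‖c‖ ^ (n - 1) ≤ 4) (hKN : K ≤ N) (ht : max 0 (-TT n c) ≤ 4) {s : ℝ}
    (hs : 1000 * (max 0 (-TT n c) + ell n K) ≤ s)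
    (hsn : s ≤ 5000 * n) :
    ∃ y, Good n c r K y ∧ 40 ≤ n * ‖y - c‖ ∧ s / 40000 ≤ n * ‖y - c‖ ∧
      n * ‖y - c‖ ≤ 40000 * s := by
  have hn2 : 2 ≤ n := by omega
  have hn0 : (100 : ℝ) ≤ n := by exact_mod_cast hn
  have hc4 := norm_le_four hn2 hc2
  have hT0 := le_max_left 0 (-TT n c)
  have hl := one_le_ell hn2 K
  rcases le_or_gt s (n / 6) with h | h
  · obtain ⟨y, hy, h1, h2⟩ := stat_all hn2 hr hno hc1 hc2 K hKN s hs h
    exact ⟨y, hy, by linarith, by linarith, by linarith⟩
  · refine ⟨0, good_zero, ?_, ?_, ?_⟩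
    · rw [zero_sub, norm_neg]
      nlinarith
    · rw [zero_sub, norm_neg]
      nlinarith
    · rw [zero_sub, norm_neg]
      nlinarith

theorem log_bound' {p m a : ℝ} (hp : 0 < p) (hm : 1 ≤ m) (ha1 : max p m / 40000 ≤ a)
    (ha2 : a ≤ 40000 * max p m) :
    |Real.log (p / a)| ≤ 40000 + Real.log m + max 0 (-Real.log p) := by
  set s := max p m with hs
  have hs0 : 0 < s := lt_max_of_lt_left hp
  have ha0 : 0 < a := lt_of_lt_of_le (by positivity) ha1
  have h32 : Real.log 40000 ≤ 40000 := by
    have := Real.log_le_sub_one_of_pos (show (0:ℝ) < 40000 by norm_num)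
    linarith
  have hm0 : 0 ≤ Real.log m := Real.log_nonneg hm
  have h0 := le_max_left 0 (-Real.log p)
  have h1 := le_max_right 0 (-Real.log p)
  rw [Real.log_div hp.ne' ha0.ne', abs_le]
  have h2 : Real.log s - Real.log 40000 ≤ Real.log a := by
    rw [← Real.log_div hs0.ne' (by norm_num)]
    exact Real.log_le_log (by positivity) ha1
  have h3 : Real.log a ≤ Real.log 40000 + Real.log s := by
    rw [← Real.log_mul (by norm_num) hs0.ne']
    exact Real.log_le_log ha0 ha2
  have h4 : Real.log p ≤ Real.log s := Real.log_le_log hp (le_max_left _ _)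
  constructor
  · rcases le_total p m with h5 | h5
    · have : s = m := max_eq_right h5
      rw [this] at h3
      linarith
    · have : s = p := max_eq_left h5
      rw [this] at h3
      linarith
  · linarith

theorem r_le (hn : 2 ≤ n) (hN : 1 ≤ N) (hno : NoCen n c r N) : r ≤ ‖c‖ := by
  by_contra hcon
  push Not at hcon
  refine hno 0 ?_ 1 le_rfl hN (P_one hn 0)
  rw [mem_ball, dist_eq_norm, zero_sub, norm_neg]
  exact hcon

/-- **The upper bound.** -/
theorem upper (hn : 2 ≤ n) (hr : 0 < r) {m : ℕ} (hm : 1 ≤ m) (hno : NoCen n c r (m + 1))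
    (hc2 : ‖c‖ ^ (n - 1) ≤ 4) (hc1 : 1 ≤ 4 * n * ‖c‖ ^ (n - 1)) :
    r * n ≤ 300000 * A₀ * ell n m := by
  have hA := one_le_A₀
  have hl := one_le_ell hn m
  have hrc := r_le hn (by omega) hno
  have hc0 : 0 < ‖c‖ := by linarith
  have hc4 := norm_le_four hn hc2
  have hn0 : (0 : ℝ) < n := by
    have : 0 < n := by omega
    exact_mod_cast this
  rcases lt_or_ge n 100 with h100 | h100
  · have h1 : (n : ℝ) < 100 := by exact_mod_cast h100
    have h2 : r * n ≤ 4 * 100 := by
      have : r ≤ 4 := by linarith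
      nlinarith
    have h3 : (1 : ℝ) ≤ A₀ * ell n m := by nlinarith
    nlinarith
  · have hn100 : (100 : ℝ) ≤ n := by exact_mod_cast h100
    -- lower bounds for `c`
    have hlog : -(Real.log 4 + Real.log n) ≤ (n - 1) * Real.log ‖c‖ := by
      have h1 : Real.log 1 ≤ Real.log (4 * n * ‖c‖ ^ (n - 1)) := Real.log_le_log (by norm_num) hc1
      rw [Real.log_one, Real.log_mul (by positivity) (by positivity), Real.log_mul (by norm_num)
        hn0.ne', Real.log_pow, Nat.cast_sub (by omega), Nat.cast_one] at h1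
      linarith
    have hl4 : Real.log 4 ≤ 2 := by
      have h3 : Real.log 4 = 2 * Real.log 2 := by
        rw [show (4:ℝ) = 2 ^ 2 by norm_num, Real.log_pow]
        norm_num
      have := Real.log_two_lt_d9
      linarith
    have hl40 : 0 ≤ Real.log 4 := Real.log_nonneg (by norm_num)
    have hln := Pool.Agent.Helper134.U1.log_le_sixteenth hn0
    have hc12 : 1 / 2 ≤ ‖c‖ := by
      by_contra hcon
      push Not at hcon
      have h1 : Real.log ‖c‖ < Real.log (1 / 2) := Real.log_lt_log hc0 hcon
      rw [Real.log_div one_ne_zero two_ne_zero, Real.log_one] at h1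
      have h2 := Real.log_two_gt_d9
      have h3 : (n - 1) * Real.log ‖c‖ ≤ (n - 1) * (-(1 / 2)) := by
        apply mul_le_mul_of_nonneg_left _ (by linarith)
        linarith
      linarith
    have ht : max 0 (-TT n c) ≤ 4 := by
      apply max_le (by norm_num)
      have h1 : TT n c = Real.log n + n * Real.log ‖c‖ := rfl
      have h2 : -1 ≤ Real.log ‖c‖ := by
        by_contra hcon
        push Not at hcon
        have h3 : (n - 1) * Real.log ‖c‖ ≤ (n - 1) * (-1) := by
          apply mul_le_mul_of_nonneg_left _ (by linarith)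
          linarith
        linarith
      linarith
    set t := max 0 (-TT n c) with htdef
    have ht0 : 0 ≤ t := le_max_left _ _
    obtain ⟨K, rfl⟩ : ∃ K, m = K + 1 := ⟨m - 1, by omega⟩
    have hlK := one_le_ell hn K
    have hp16 : n * ‖c‖ ^ n ≤ 16 * n := by
      have := norm_pow_le hn hc2
      nlinarith
    have hb : 1000 * (t + ell n K) ≤ 5000 * n := by
      have := ell_le hn K
      linarith
    obtain ⟨y, hy, hy0, hy1, hy2⟩ := exists_good' h100 hr hno hc12 hc2 (K := K) (by omega) ht
      (s := max (n * ‖c‖ ^ n) (1000 * (t + ell n K))) (le_max_right _ _)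
      (max_le (by linarith) hb)
    have h1 := landau hn hr hno (by omega) hy
    have hyc : 0 < ‖y - c‖ := norm_pos_iff.mpr (sub_ne_zero.mpr (hy.ne hn hr hno (by omega)))
    have h3 := log_bound' (p := n * ‖c‖ ^ n) (by positivity) (by linarith) hy1 hy2
    rw [mul_div_mul_left _ _ hn0.ne'] at h3
    have h4 : -Real.log (n * ‖c‖ ^ n) ≤ t := by
      rw [← exp_TT hn hc0, Real.log_exp]
      exact le_max_right _ _
    have h5 : Real.log (1000 * (t + ell n K)) ≤ 11 + ell n (K + 1) := by
      rw [Real.log_mul (by norm_num) (by linarith)]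
      have h5 : Real.log 1000 ≤ 7 := by
        have h6 : Real.log 1000 ≤ Real.log (2 ^ 10) :=
          Real.log_le_log (by norm_num) (by norm_num)
        rw [Real.log_pow] at h6
        have := Real.log_two_lt_d9
        norm_num at h6
        linarith
      have h7 : Real.log (t + ell n K) ≤ Real.log ((1 + t) * ell n K) :=
        Real.log_le_log (by linarith) (by nlinarith)
      rw [Real.log_mul (by linarith) (by linarith)] at h7
      have h8 := Real.log_le_sub_one_of_pos (show 0 < 1 + t by linarith)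
      have h9 := log_ell_le n K
      linarith
    have h6 : |Real.log (‖c‖ ^ n / ‖y - c‖)| ≤ 40020 + ell n (K + 1) := by
      have : max 0 (-Real.log (n * ‖c‖ ^ n)) ≤ 4 := max_le (by norm_num) (by linarith)
      linarith
    have h8 : 2 * r / ‖y - c‖ ≤ 1 / 20 * (r * n) := by
      rw [div_le_iff₀ hyc]
      nlinarith
    have h9 : r * n ≤ 4 * (A₀ * (1 + (40020 + ell n (K + 1))) + 1 / 20 * (r * n)) := by
      refine h1.trans ?_
      gcongr
    have h10 : A₀ * (1 + (40020 + ell n (K + 1))) ≤ 40022 * (A₀ * ell n (K + 1)) := by nlinarith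
    nlinarith

/-- The central disc of the main component. -/
theorem centre_disc (hn : 2 ≤ n) (h : n * ‖c‖ ^ (n - 1) ≤ 1 / 4) :
    c ∈ N62a1eb23.multibrotSet n := by
  intro htend
  have hn0 : (0 : ℝ) < n := by
    have : 0 < n := by omega
    exact_mod_cast this
  have h1 : Tendsto (fun k => ‖P n k c‖) atTop atTop := tendsto_norm_cobounded_atTop.comp htend
  obtain ⟨N, hN⟩ := (h1.eventually (eventually_gt_atTop (2 * ‖c‖))).exists_forall_of_atTop
  have h2 := hN (N + 1) (by omega)
  have h3 := (deep hn h (N + 1) (by omega)).1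
  have h4 : ‖c‖ * (1 + 1 / n) ≤ ‖c‖ * 2 := by
    have : (1 : ℝ) / n ≤ 1 := by
      rw [div_le_one hn0]
      have : 1 ≤ n := by omega
      exact_mod_cast this
    gcongr
    linarith
  linarith

theorem frontier_le (hn : 2 ≤ n) (hc : c ∈ frontier (N62a1eb23.multibrotSet n)) :
    1 ≤ 4 * n * ‖c‖ ^ (n - 1) := by
  by_contra hcon
  push Not at hcon
  have hopen : IsOpen {t : ℂ | 4 * n * ‖t‖ ^ (n - 1) < 1} := by
    apply isOpen_lt _ continuous_const
    fun_prop
  have hsub : {t : ℂ | 4 * n * ‖t‖ ^ (n - 1) < 1} ⊆ N62a1eb23.multibrotSet n := by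
    intro t ht
    apply centre_disc hn
    have : 4 * (n : ℝ) * ‖t‖ ^ (n - 1) < 1 := ht
    linarith
  have h1 : c ∈ interior (N62a1eb23.multibrotSet n) :=
    mem_interior.mpr ⟨_, hsub, hopen, hcon⟩
  exact hc.2 h1

end Pool.Agent.Helper134.Eff
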