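import Mathlib
import Pool.Agent.Helper134_Eff.Upper
import Pool.Agent.Helper134_Sharp.Iter

/-!
# Superattracting parameters of bounded period: the lower bound
-/

set_option autoImplicit false
open Set Filter Topology Metric

namespace Pool.Agent.Helper134.Eff

open Pool.Agent.H712R2 (P fc P_succ P_one P_zero)
open Pool.Agent.Helper134.Sharp (L_ge L_exp real_mem)

variable {n : ℕ}

theorem eighth (hn : 2 ≤ n) : n * (1 / 8 : ℝ) ^ (n - 1) ≤ 1 / 4 := by
  induction n, hn using Nat.le_induction with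
  | base => norm_num
  | succ n hn ih =>
    have h1 : (1 / 8 : ℝ) ^ (n + 1 - 1) = (1 / 8) ^ (n - 1) * (1 / 8) := by
      rw [← pow_succ]
      congr 1
      omega
    rw [h1]
    have hn0 : (2 : ℝ) ≤ n := by exact_mod_cast hn
    push_cast
    have h2 : 0 ≤ (1 / 8 : ℝ) ^ (n - 1) := by positivity
    nlinarith

/-- The largest real parameter. -/
theorem exists_tip (hn : 2 ≤ n) : ∃ s : ℝ, 1 / 8 ≤ s ∧ (s : ℂ) ∈ frontier (N62a1eb23.multibrotSet n) ∧
    n * s ^ (n - 1) ≤ 1 := by
  set S : Set ℝ := {s : ℝ | (s : ℂ) ∈ N62a1eb23.multibrotSet n} with hS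
  have hcl : IsClosed S := (Pool.Agent.H712R2.isCompact_multibrot hn).isClosed.preimage
    Complex.continuous_ofReal
  have hbdd : BddAbove S := by
    refine ⟨2, ?_⟩
    intro s hs
    have h1 := (Pool.Agent.H712R2.mem_multibrot_iff hn (s : ℂ)).mp hs 1
    rw [P_one hn, Complex.norm_real, Real.norm_eq_abs] at h1
    exact (le_abs_self s).trans h1
  have h8 : (1 / 8 : ℝ) ∈ S := by
    apply centre_disc hn
    rw [Complex.norm_real, Real.norm_eq_abs, abs_of_pos (by norm_num)]
    exact eighth hn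
  have hne : S.Nonempty := ⟨_, h8⟩
  have hmem := hcl.csSup_mem hne hbdd
  have hge := le_csSup hbdd h8
  refine ⟨sSup S, hge, ⟨subset_closure hmem, ?_⟩, real_mem hn (by linarith) hmem⟩
  intro hint
  have h1 : Tendsto (fun s : ℝ => (s : ℂ)) (𝓝[>] (sSup S)) (𝓝 ((sSup S : ℝ) : ℂ)) :=
    (Complex.continuous_ofReal.tendsto _).mono_left nhdsWithin_le_nhds
  have h2 := h1.eventually (isOpen_interior.mem_nhds hint)
  obtain ⟨s, hs1, hs2⟩ := (h2.and self_mem_nhdsWithin).exists
  have h3 : (s : ℂ) ∈ N62a1eb23.multibrotSet n := interior_subset hs1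
  have h4 := le_csSup hbdd (show s ∈ S from h3)
  exact absurd hs2 (not_lt.mpr h4)

theorem ell_eq {A : ℝ} (hA : 1 ≤ A) {k : ℕ} (h : Real.exp^[k + 1] A ≤ n) :
    ∀ i, i ≤ k + 1 → ell n i = Real.log^[i] (n : ℝ) := by
  intro i
  induction i with
  | zero => intro _; rfl
  | succ i ih =>
    intro hi
    rw [ell_succ, ih (by omega), Function.iterate_succ_apply']
    apply max_eq_right
    have := L_ge h hi
    rw [Function.iterate_succ_apply'] at this
    linarith

/-- **The lower bound.** -/
theorem lower (hn : 2 ≤ n) {k : ℕ} (hk : Real.exp^[k + 1] 5000 ≤ n) :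
    ∃ c ∈ frontier (N62a1eb23.multibrotSet n), ∀ c' : ℂ, ∀ j, 1 ≤ j → j ≤ k + 2 →
      P n j c' = 0 → Real.log^[k + 1] (n : ℝ) ≤ 5000 * (n * ‖c' - c‖) := by
  obtain ⟨s, hs8, hsF, hsn⟩ := exists_tip hn
  refine ⟨s, hsF, ?_⟩
  intro c' j hj1 hj hPj
  by_contra hcon
  push Not at hcon
  have hn0 : (0 : ℝ) < n := by
    have : 0 < n := by omega
    exact_mod_cast this
  set L := Real.log^[k + 1] (n : ℝ) with hL
  have hLA : 5000 ≤ L := L_ge hk le_rfl
  have hLx : ∀ i, i ≤ k + 1 → L ≤ Real.log^[i] (n : ℝ) := by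
    intro i hi
    have key : ∀ m, i + m ≤ k + 1 → Real.log^[i + m] (n : ℝ) ≤ Real.log^[i] n := by
      intro m
      induction m with
      | zero => intro _; exact le_rfl
      | succ m ih =>
        intro hm
        refine le_trans ?_ (ih (by omega))
        rw [show i + (m + 1) = i + m + 1 by ring, Function.iterate_succ_apply']
        have h1 := L_ge hk (i := i + m) (by omega)
        have h2 := Real.log_le_sub_one_of_pos (show 0 < Real.log^[i + m] (n : ℝ) by linarith)
        linarith
    have := key (k + 1 - i) (by omega)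
    rwa [show i + (k + 1 - i) = k + 1 by omega] at this
  have hxn : ∀ i, i ≤ k + 1 → Real.log^[i] (n : ℝ) ≤ n := by
    intro i
    induction i with
    | zero => intro _; exact le_rfl
    | succ i ih =>
      intro hi
      refine le_trans ?_ (ih (by omega))
      rw [Function.iterate_succ_apply']
      have h1 := L_ge hk (i := i) (by omega)
      have h2 := Real.log_le_sub_one_of_pos (show 0 < Real.log^[i] (n : ℝ) by linarith)
      linarith
  have hLn : L ≤ n := hxn (k + 1) le_rfl
  have hn5 : (5000 : ℝ) ≤ n := by linarith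
  -- the parameter `c'`
  have hd : ‖c' - s‖ ≤ L / (5000 * n) := by
    rw [le_div_iff₀ (by positivity)]
    linarith
  have hd1 : L / (5000 * n) ≤ 1 / 5000 := by
    rw [div_le_div_iff₀ (by positivity) (by norm_num)]
    nlinarith
  have hsnorm : ‖(s : ℂ)‖ = s := by
    rw [Complex.norm_real, Real.norm_eq_abs, abs_of_pos (by linarith)]
  have hc'l : 1 / 16 ≤ ‖c'‖ := by
    have h1 := norm_sub_norm_le (s : ℂ) c'
    rw [norm_sub_rev, hsnorm] at h1
    linarith
  have hc'0 : 0 < ‖c'‖ := by linarith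
  have hc'u : ‖c'‖ ≤ s + L / (5000 * n) := by
    have h1 := norm_sub_norm_le c' (s : ℂ)
    rw [hsnorm] at h1
    linarith
  have hs1 : s ≤ 1 := by
    by_contra hc
    push Not at hc
    have h1 : 1 ≤ s ^ (n - 1) := one_le_pow₀ hc.le
    nlinarith
  have hE1 : n * ‖c'‖ ^ n ≤ Real.exp (L / 4) := by
    have h1 : ‖c'‖ ≤ s * (1 + L / 4 / n) := by
      refine hc'u.trans ?_
      have h2 : L / (5000 * n) ≤ s * (L / 4 / n) := by
        have h3 : L / (5000 * n) = (1 / 1250) * (L / 4 / n) := by field_simp; norm_num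
        rw [h3]
        have : 0 ≤ L / 4 / n := by positivity
        nlinarith
      linarith
    have h2 : 1 + L / 4 / n ≤ Real.exp (L / 4 / n) := by
      have := Real.add_one_le_exp (L / 4 / n)
      linarith
    have h3 : n * s ^ n ≤ 1 := by
      have h4 : s ^ n = s ^ (n - 1) * s := by rw [← pow_succ, Nat.sub_add_cancel (by omega)]
      rw [h4]
      have : 0 ≤ n * s ^ (n - 1) := by positivity
      nlinarith
    calc n * ‖c'‖ ^ n ≤ n * (s * Real.exp (L / 4 / n)) ^ n := by
          have h5 : ‖c'‖ ≤ s * Real.exp (L / 4 / n) := by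
            refine h1.trans ?_
            gcongr
          gcongr
      _ = n * s ^ n * Real.exp (L / 4 / n) ^ n := by rw [mul_pow]; ring
      _ ≤ 1 * Real.exp (L / 4 / n) ^ n := by gcongr
      _ = Real.exp (L / 4) := by
          rw [one_mul, ← Real.exp_nat_mul]
          congr 1
          field_simp
  have hstep : ∀ i, n * ‖P n (i + 1) c'‖ ^ n ≤
      Real.exp (L / 4 + 16 * (n * ‖P n i c'‖ ^ n)) := by
    intro i
    set x := ‖P n i c'‖ ^ n with hx
    have hx0 : 0 ≤ x := by positivity
    have h1 : ‖P n (i + 1) c'‖ ≤ ‖c'‖ * (1 + 16 * x) := by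
      rw [P_succ]
      refine (norm_add_le _ _).trans ?_
      rw [norm_pow, ← hx]
      nlinarith
    have h2 : 1 + 16 * x ≤ Real.exp (16 * x) := by
      have := Real.add_one_le_exp (16 * x)
      linarith
    calc n * ‖P n (i + 1) c'‖ ^ n ≤ n * (‖c'‖ * Real.exp (16 * x)) ^ n := by
          have h5 : ‖P n (i + 1) c'‖ ≤ ‖c'‖ * Real.exp (16 * x) := by
            refine h1.trans ?_
            gcongr
          gcongr
      _ = n * ‖c'‖ ^ n * Real.exp (16 * x) ^ n := by rw [mul_pow]; ring
      _ ≤ Real.exp (L / 4) * Real.exp (16 * x) ^ n := by gcongr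
      _ = Real.exp (L / 4 + 16 * (n * x)) := by
          rw [← Real.exp_nat_mul, ← Real.exp_add]
          congr 1
          ring
  -- the heights stay small
  have hsq : ∀ x : ℝ, 5000 ≤ x → 16 * √x ≤ x / 4 := by
    intro x hx
    have h1 : √x * √x = x := Real.mul_self_sqrt (by linarith)
    have h2 : 64 ≤ √x := by
      rw [Real.le_sqrt' (by norm_num)]
      linarith
    nlinarith
  have hE : ∀ i, i ≤ k → n * ‖P n (i + 1) c'‖ ^ n ≤ √(Real.log^[k - i] (n : ℝ)) := by
    intro i
    induction i with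
    | zero =>
      intro _
      rw [zero_add, P_one hn, Nat.sub_zero]
      refine hE1.trans ?_
      rw [← L_exp (by norm_num) hk (i := k) (by omega), ← hL]
      rw [← Real.exp_half]
      apply Real.exp_le_exp.2
      linarith
    | succ i ih =>
      intro hi
      have h1 := ih (by omega)
      refine (hstep (i + 1)).trans ?_
      obtain ⟨m, hm⟩ : ∃ m, k - i = m + 1 := ⟨k - i - 1, by omega⟩
      have hm' : k - (i + 1) = m := by omega
      rw [hm] at h1
      rw [hm', ← L_exp (by norm_num) hk (i := m) (by omega), ← Real.exp_half]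
      apply Real.exp_le_exp.2
      have hx := hLx (m + 1) (by omega)
      have h2 := hsq (Real.log^[m + 1] (n : ℝ)) (by linarith)
      linarith
  have hEn : ∀ i, i ≤ k → n * ‖P n (i + 1) c'‖ ^ n ≤ √(n : ℝ) := by
    intro i hi
    exact (hE i hi).trans (Real.sqrt_le_sqrt (hxn (k - i) (by omega)))
  -- conclusion
  rcases Nat.lt_or_ge 1 j with hj2 | hj2
  · obtain ⟨i, rfl⟩ : ∃ i, j = i + 2 := ⟨j - 2, by omega⟩
    have h1 := hEn i (by omega)
    rw [P_succ] at hPj
    have h2 : ‖P n (i + 1) c'‖ ^ n = ‖c'‖ := by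
      rw [← norm_pow, ← norm_neg c']
      congr 1
      linear_combination hPj
    rw [h2] at h1
    have h3 : √(n : ℝ) * √(n : ℝ) = n := Real.mul_self_sqrt hn0.le
    have h4 : 64 ≤ √(n : ℝ) := by
      rw [Real.le_sqrt' (by norm_num)]
      linarith
    nlinarith
  · have hj' : j = 1 := by omega
    rw [hj', P_one hn] at hPj
    rw [hPj, norm_zero] at hc'0
    exact lt_irrefl _ hc'0

end Pool.Agent.Helper134.Eff
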